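import Pool.Agent.Helper4.T7.StD

/-!
# Project T7 (levels `7 * 5^n`): solutions of the relation with given leading forms

The proof follows Pool/Agent/Helper69/TK/M_Led.lean.
-/

set_option autoImplicit false

namespace Pool.Agent.Helper47.T7

open Pool.Agent.Helper4.T7
open Pool.Agent.Helper14.W5 (tr5 Fn5 op5 Wd5 dX dY bb5 S5Trm S5Low0 S5Nfa S5Lw1 S5Bb oA Lw)

private theorem five0 : (5 : ZMod 5) = 0 := by decide

private theorem five {M : Type*} [AddCommGroup M] [Module (ZMod 5) M] (x : M) :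
    (5 : ZMod 5) • x = 0 := by rw [five0, zero_smul]

/-- The defect through the operators. -/
private theorem dfq {r s : ℕ} (F : Fin 5 → Fn5 (5 ^ r) (5 ^ s)) :
    (DfQ F : Fn5 (5 ^ r) (5 ^ s)) = F 0 - op5 1 1 0 1 (F 0) - (F 1 - op5 14 (-3) 7 (-7) (F 1)) -
      (F 2 - op5 19 (-6) 7 (-11) (F 2)) - (F 3 - op5 24 (-11) 7 (-16) (F 3)) -
      (F 4 - op5 28 (-17) 7 (-21) (F 4)) := rfl

private theorem core (hsu : TSur) {r s : ℕ} (t : Fin 5 → ZMod 5) (P : Fn5 (5 ^ r) (5 ^ s))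
    (G : Fin 5 → Fn5 (5 ^ r) (5 ^ s)) (d : ℤ) (hd : d - 2 < 5 ^ r + 5 ^ s - 2)
    (hG : ∀ f, G f ∈ Wd5 (d - 1))
    (hE : (DfQ (fun f => t f • P + G f) : Fn5 (5 ^ r) (5 ^ s)) ∈ Wd5 (d - 2)) :
    ∃ F : Fin 5 → Fn5 (5 ^ r) (5 ^ s), RelQ F ∧ ∀ f : Fin 5, F f - t f • P ∈ Wd5 (d - 1) := by
  obtain ⟨F', hF', hEq⟩ := hsu r s (d - 2) _ hd hE
  have e3 : d - 2 + 1 = d - 1 := by ring
  rw [e3] at hF'
  refine ⟨fun f => t f • P + G f - F' f, ?_, ?_⟩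
  · intro x y
    have h := congrFun (congrFun hEq x) y
    have e : DfQ (fun f => t f • P + G f - F' f) x y =
        DfQ (fun f => t f • P + G f) x y - DfQ F' x y := by
      have e1 : (DfQ (fun f => t f • P + G f - F' f) : Fn5 (5 ^ r) (5 ^ s)) =
          DfQ (fun f => t f • P + G f) - DfQ F' := by
        rw [dfq, dfq, dfq]
        simp only [map_sub]
        abel
      exact congrFun (congrFun e1 x) y
    rw [e, h, sub_self]
  · intro f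
    have e : t f • P + G f - F' f - t f • P = G f - F' f := by abel
    show t f • P + G f - F' f - t f • P ∈ Wd5 (d - 1)
    rw [e]
    exact Submodule.sub_mem _ (hG f) (hF' f)

/-- Even degree. -/
private theorem evn (ht : S5Trm) (hl : S5Low0) (hn : S5Nfa) (h1 : S5Lw1) (hw : TLw1) (hb : S5Bb)
    (hsu : TSur) (r s A B : ℕ) (hA : A < 5 ^ r) (hB : B < 5 ^ s) (hev : Even (A + B))
    (t : Fin 5 → ZMod 5)
    (hco : t 1 * ((2 : ZMod 5) ^ (A + 3 * B) - 1) + t 4 * ((3 : ZMod 5) ^ (A + 3 * B) - 1) = 0) :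
    ∃ F : Fin 5 → Fn5 (5 ^ r) (5 ^ s), RelQ F ∧
      ∀ f : Fin 5, F f - t f • bb5 A B ∈ Wd5 ((A : ℤ) + B - 1) := by
  obtain ⟨-, -, -, -, wmono, -, ldx, ldy, -⟩ := hl r s
  obtain ⟨b1, -⟩ := hb r s
  obtain ⟨-, -, -, -, -, -, nA, -⟩ := hn r s
  obtain ⟨l0, -⟩ := h1 r s
  obtain ⟨w2, w3, wodd, wa, wb⟩ := hw r s
  have hA' : (A : ℤ) < 5 ^ r := by exact_mod_cast hA
  have hB' : (B : ℤ) < 5 ^ s := by exact_mod_cast hB
  obtain ⟨d, hd⟩ : ∃ d : ℤ, d = (A : ℤ) + B := ⟨_, rfl⟩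
  have hodd : Odd (d - 1) := by
    obtain ⟨m, hm'⟩ := hev
    have e : (A : ℤ) + B = m + m := by exact_mod_cast hm'
    exact ⟨(m : ℤ) - 1, by linarith⟩
  -- the operators
  obtain ⟨T, hT⟩ : ∃ T : Module.End (ZMod 5) (Fn5 (5 ^ r) (5 ^ s)), T = op5 1 1 0 1 := ⟨_, rfl⟩
  obtain ⟨δ1, hδ1⟩ : ∃ δ : Module.End (ZMod 5) (Fn5 (5 ^ r) (5 ^ s)), δ = op5 14 (-3) 7 (-7) :=
    ⟨_, rfl⟩
  obtain ⟨δ2, hδ2⟩ : ∃ δ : Module.End (ZMod 5) (Fn5 (5 ^ r) (5 ^ s)), δ = op5 19 (-6) 7 (-11) :=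
    ⟨_, rfl⟩
  obtain ⟨δ3, hδ3⟩ : ∃ δ : Module.End (ZMod 5) (Fn5 (5 ^ r) (5 ^ s)), δ = op5 24 (-11) 7 (-16) :=
    ⟨_, rfl⟩
  obtain ⟨δ4, hδ4⟩ : ∃ δ : Module.End (ZMod 5) (Fn5 (5 ^ r) (5 ^ s)), δ = op5 28 (-17) 7 (-21) :=
    ⟨_, rfl⟩
  have hδδ : ∀ F : Fn5 (5 ^ r) (5 ^ s), δ1 (δ1 F) = op5 13 (-3) 7 (-8) F := by
    intro F
    obtain ⟨m1, m2, m3⟩ := ht (ZMod 5) r s F
    have e1 := m1 14 (-3) 7 (-7) 14 (-3) 7 (-7) (by decide) (by decide) (by decide) (by decide)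
    have e2 := m3 7 13 (-3) 7 (-8) (by decide) (by decide) (by decide)
    norm_num at e1 e2
    rw [hδ1]
    change tr5 14 (-3) 7 (-7) (tr5 14 (-3) 7 (-7) F) = tr5 13 (-3) 7 (-8) F
    rw [e1, e2]
  have hδW : ∀ (k : ℤ) (F : Fn5 (5 ^ r) (5 ^ s)), F ∈ Wd5 k → δ1 F ∈ Wd5 k := by
    intro k F hF
    have h := l0 14 (-3) 7 (-7) (by decide) (by decide) k F hF
    rw [sub_zero, ← hδ1] at h
    exact h
  obtain ⟨P, hP⟩ : ∃ P : Fn5 (5 ^ r) (5 ^ s), P = bb5 A B := ⟨_, rfl⟩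
  have hPW : P ∈ Wd5 d := by
    rw [hP, hd]
    exact b1 A B hA hB
  obtain ⟨c2, hc2⟩ : ∃ c2 : ZMod 5, c2 = (2 : ZMod 5) ^ (A + 3 * B) := ⟨_, rfl⟩
  obtain ⟨c3, hc3⟩ : ∃ c3 : ZMod 5, c3 = (3 : ZMod 5) ^ (A + 3 * B) := ⟨_, rfl⟩
  rw [← hc2, ← hc3] at hco
  have ga : δ1 P - c2 • P ∈ Wd5 (d - 1) := by
    have h := wa A B hA hB
    rw [← hδ1, ← hP, ← hd, ← hc2] at h
    exact h
  have gb : δ4 P - c3 • P ∈ Wd5 (d - 1) := by
    have h := wb A B hA hB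
    rw [← hδ4, ← hP, ← hd, ← hc3] at h
    exact h
  have gX : dX P ∈ Wd5 (d - 1) := ldx d P hPW
  have gY : dY P ∈ Wd5 (d - 1) := ldy d P hPW
  have g2 : δ2 P - P ∈ Wd5 (d - 1) := by
    have h := wmono (d - 2) (d - 1) (by linarith) (w2 d P hPW)
    rw [← hδ2] at h
    have e : δ2 P - P = (δ2 - 1 - dX - (3 : ZMod 5) • dY :
        Module.End (ZMod 5) (Fn5 (5 ^ r) (5 ^ s))) P + dX P + (3 : ZMod 5) • dY P := by
      simp only [LinearMap.sub_apply, Module.End.one_apply, LinearMap.smul_apply]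
      abel
    rw [e]
    exact Submodule.add_mem _ (Submodule.add_mem _ h gX) (Submodule.smul_mem _ _ gY)
  have g3 : δ3 P - P ∈ Wd5 (d - 1) := by
    have h := wmono (d - 2) (d - 1) (by linarith) (w3 d P hPW)
    rw [← hδ3] at h
    have e : δ3 P - P = (δ3 - 1 - dX - (3 : ZMod 5) • dY :
        Module.End (ZMod 5) (Fn5 (5 ^ r) (5 ^ s))) P + dX P + (3 : ZMod 5) • dY P := by
      simp only [LinearMap.sub_apply, Module.End.one_apply, LinearMap.smul_apply]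
      abel
    rw [e]
    exact Submodule.add_mem _ (Submodule.add_mem _ h gX) (Submodule.smul_mem _ _ gY)
  have g0 : T P - P ∈ Wd5 (d - 1) := by
    have h := nA d P hPW
    rw [LinearMap.sub_apply, Module.End.one_apply, oA, ← hT] at h
    exact h
  -- the defect of the first approximation
  obtain ⟨E0, hE0⟩ : ∃ E0 : Fn5 (5 ^ r) (5 ^ s), E0 = t 0 • P - T (t 0 • P) -
      (t 1 • P - δ1 (t 1 • P)) - (t 2 • P - δ2 (t 2 • P)) - (t 3 • P - δ3 (t 3 • P)) -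
      (t 4 • P - δ4 (t 4 • P)) := ⟨_, rfl⟩
  have hE0W : E0 ∈ Wd5 (d - 1) := by
    have e : E0 = -(t 0 • (T P - P)) + t 1 • (δ1 P - c2 • P) + t 2 • (δ2 P - P) +
        t 3 • (δ3 P - P) + t 4 • (δ4 P - c3 • P) +
        (t 1 * (c2 - 1) + t 4 * (c3 - 1)) • P := by
      rw [hE0]
      simp only [map_smul]
      module
    rw [e, hco, zero_smul, add_zero]
    exact Submodule.add_mem _ (Submodule.add_mem _ (Submodule.add_mem _ (Submodule.add_mem _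
      (Submodule.neg_mem _ (Submodule.smul_mem _ _ g0)) (Submodule.smul_mem _ _ ga))
      (Submodule.smul_mem _ _ g2)) (Submodule.smul_mem _ _ g3)) (Submodule.smul_mem _ _ gb)
  obtain ⟨A1, hA1⟩ : ∃ A1 : Fn5 (5 ^ r) (5 ^ s), A1 = (2 : ZMod 5) • (-E0 + δ1 (-E0)) := ⟨_, rfl⟩
  have hA1W : A1 ∈ Wd5 (d - 1) := by
    rw [hA1]
    exact Submodule.smul_mem _ _ (Submodule.add_mem _ (Submodule.neg_mem _ hE0W)
      (hδW _ _ (Submodule.neg_mem _ hE0W)))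
  have hE1W : E0 - (A1 - δ1 A1) ∈ Wd5 (d - 2) := by
    have g := wodd (d - 1) E0 hE0W hodd
    rw [← hδδ] at g
    have e : E0 - (A1 - δ1 A1) = (5 : ZMod 5) • E0 - (2 : ZMod 5) • (δ1 (δ1 E0) + E0) := by
      rw [hA1]
      simp only [map_smul, map_add, map_neg]
      module
    rw [e, five, zero_sub]
    have e2 : d - 1 - 1 = d - 2 := by ring
    rw [e2] at g
    exact Submodule.neg_mem _ (Submodule.smul_mem _ _ g)
  have hDf : (DfQ (fun f => t f • P + (if f = 1 then A1 else 0)) : Fn5 (5 ^ r) (5 ^ s)) =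
      E0 - (A1 - δ1 A1) := by
    rw [dfq, ← hT, ← hδ1, ← hδ2, ← hδ3, ← hδ4, hE0]
    have q0 : ((0 : Fin 5) = 1) = False := by decide
    have q2 : ((2 : Fin 5) = 1) = False := by decide
    have q3 : ((3 : Fin 5) = 1) = False := by decide
    have q4 : ((4 : Fin 5) = 1) = False := by decide
    simp only [q0, q2, q3, q4, if_true, if_false, add_zero, map_add]
    abel
  have := core hsu t P (fun f => if f = 1 then A1 else 0) d (by linarith) (fun f => by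
    by_cases hf : f = 1
    · simp only [hf, if_true]; exact hA1W
    · simp only [hf, if_false]; exact Submodule.zero_mem _) (by rw [hDf]; exact hE1W)
  rwa [hP, hd] at this

/-- Odd degree. -/
private theorem oddd (hl : S5Low0) (hn : S5Nfa) (hw : TLw1) (hb : S5Bb)
    (hsu : TSur) (r s A B : ℕ) (hA : A < 5 ^ r) (hB : B < 5 ^ s)
    (t : Fin 5 → ZMod 5) (ht1 : t 1 = 0) (ht4 : t 4 = 0)
    (hco : (t 2 + t 3 = 0 ∧ t 0 = 0) ∨ (t 0 = 1 ∧ t 2 + t 3 = 1 ∧ (A + 3 * B) % 4 = 1)) :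
    ∃ F : Fin 5 → Fn5 (5 ^ r) (5 ^ s), RelQ F ∧
      ∀ f : Fin 5, F f - t f • bb5 A B ∈ Wd5 ((A : ℤ) + B - 1) := by
  obtain ⟨-, -, -, -, wmono, -, ldx, ldy, -⟩ := hl r s
  obtain ⟨b1, -, b3, -, b5, -⟩ := hb r s
  obtain ⟨-, -, -, -, nA3, -, -, -⟩ := hn r s
  obtain ⟨w2, w3, wodd, wa, wb⟩ := hw r s
  have hA' : (A : ℤ) < 5 ^ r := by exact_mod_cast hA
  have hB' : (B : ℤ) < 5 ^ s := by exact_mod_cast hB
  obtain ⟨d, hd⟩ : ∃ d : ℤ, d = (A : ℤ) + B := ⟨_, rfl⟩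
  obtain ⟨T, hT⟩ : ∃ T : Module.End (ZMod 5) (Fn5 (5 ^ r) (5 ^ s)), T = op5 1 1 0 1 := ⟨_, rfl⟩
  obtain ⟨δ1, hδ1⟩ : ∃ δ : Module.End (ZMod 5) (Fn5 (5 ^ r) (5 ^ s)), δ = op5 14 (-3) 7 (-7) :=
    ⟨_, rfl⟩
  obtain ⟨δ2, hδ2⟩ : ∃ δ : Module.End (ZMod 5) (Fn5 (5 ^ r) (5 ^ s)), δ = op5 19 (-6) 7 (-11) :=
    ⟨_, rfl⟩
  obtain ⟨δ3, hδ3⟩ : ∃ δ : Module.End (ZMod 5) (Fn5 (5 ^ r) (5 ^ s)), δ = op5 24 (-11) 7 (-16) :=
    ⟨_, rfl⟩
  obtain ⟨δ4, hδ4⟩ : ∃ δ : Module.End (ZMod 5) (Fn5 (5 ^ r) (5 ^ s)), δ = op5 28 (-17) 7 (-21) :=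
    ⟨_, rfl⟩
  obtain ⟨P, hP⟩ : ∃ P : Fn5 (5 ^ r) (5 ^ s), P = bb5 A B := ⟨_, rfl⟩
  have hPW : P ∈ Wd5 d := by
    rw [hP, hd]
    exact b1 A B hA hB
  have gY : dY P ∈ Wd5 (d - 1) := ldy d P hPW
  have g0 : T P - P - dX P ∈ Wd5 (d - 2) := by
    have h := wmono (d - 3) (d - 2) (by linarith) (nA3 d P hPW)
    rw [LinearMap.sub_apply, LinearMap.sub_apply, Module.End.one_apply, oA, ← hT] at h
    exact h
  have g2 : δ2 P - P - dX P - (3 : ZMod 5) • dY P ∈ Wd5 (d - 2) := by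
    have h := w2 d P hPW
    rw [← hδ2] at h
    exact h
  have g3 : δ3 P - P - dX P - (3 : ZMod 5) • dY P ∈ Wd5 (d - 2) := by
    have h := w3 d P hPW
    rw [← hδ3] at h
    exact h
  -- the correction
  obtain ⟨Q, hQW, hQ1⟩ : ∃ Q : Fn5 (5 ^ r) (5 ^ s), Q ∈ Wd5 (d - 1) ∧
      -t 0 • dX P + (t 2 + t 3) • (dX P + (3 : ZMod 5) • dY P) - (Q - δ1 Q) ∈ Wd5 (d - 2) := by
    rcases hco with ⟨h1, h2⟩ | ⟨h1, h2, h3⟩
    · refine ⟨0, Submodule.zero_mem _, ?_⟩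
      rw [h1, h2, map_zero, sub_zero, sub_zero, neg_zero, zero_smul, zero_smul, add_zero]
      exact Submodule.zero_mem _
    · refine ⟨(4 : ZMod 5) • dY P, Submodule.smul_mem _ _ gY, ?_⟩
      have hk : δ1 (dY P) - (4 : ZMod 5) • dY P ∈ Wd5 (d - 2) := by
        rcases Nat.eq_zero_or_pos B with hB0 | hB0
        · have e0 : dY P = 0 := by
            rw [hP, hB0]
            exact b5 A hA
          rw [e0, map_zero, smul_zero, sub_zero]
          exact Submodule.zero_mem _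
        · obtain ⟨b, rfl⟩ : ∃ b, B = b + 1 := ⟨B - 1, by omega⟩
          have e0 : dY P = bb5 A b := by
            rw [hP]
            exact b3 A b hA hB
          have h := wa A b hA (by omega)
          obtain ⟨k, hk⟩ : ∃ k, A + 3 * b = 4 * k + 2 := ⟨(A + 3 * b) / 4, by omega⟩
          have e2 : (2 : ZMod 5) ^ 4 = 1 := by decide
          have e4 : (2 : ZMod 5) ^ 2 = 4 := by decide
          rw [hk, pow_add, pow_mul, e2, one_pow, e4, one_mul, ← hδ1] at h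
          rw [e0]
          have e5 : (A : ℤ) + b - 1 = d - 2 := by rw [hd]; push_cast; ring
          rw [e5] at h
          exact h
      have e : -t 0 • dX P + (t 2 + t 3) • (dX P + (3 : ZMod 5) • dY P) -
          ((4 : ZMod 5) • dY P - δ1 ((4 : ZMod 5) • dY P)) =
          (5 : ZMod 5) • ((3 : ZMod 5) • dY P) + (4 : ZMod 5) • (δ1 (dY P) - (4 : ZMod 5) • dY P) := by
        rw [h1, h2, map_smul]
        module
      rw [e, five, zero_add]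
      exact Submodule.smul_mem _ _ hk
  have hDf : (DfQ (fun f => t f • P + (if f = 1 then Q else 0)) : Fn5 (5 ^ r) (5 ^ s)) =
      (-t 0 • dX P + (t 2 + t 3) • (dX P + (3 : ZMod 5) • dY P) - (Q - δ1 Q)) +
      (-(t 0 • (T P - P - dX P)) + t 2 • (δ2 P - P - dX P - (3 : ZMod 5) • dY P) +
        t 3 • (δ3 P - P - dX P - (3 : ZMod 5) • dY P)) := by
    rw [dfq, ← hT, ← hδ1, ← hδ2, ← hδ3, ← hδ4]
    have q0 : ((0 : Fin 5) = 1) = False := by decide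
    have q2 : ((2 : Fin 5) = 1) = False := by decide
    have q3 : ((3 : Fin 5) = 1) = False := by decide
    have q4 : ((4 : Fin 5) = 1) = False := by decide
    simp only [q0, q2, q3, q4, if_true, if_false, add_zero, map_add, map_smul, ht1, ht4, zero_smul,
      zero_add, map_zero, sub_zero]
    module
  have := core hsu t P (fun f => if f = 1 then Q else 0) d (by linarith) (fun f => by
    by_cases hf : f = 1
    · simp only [hf, if_true]; exact hQW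
    · simp only [hf, if_false]; exact Submodule.zero_mem _) (by
      rw [hDf]
      exact Submodule.add_mem _ hQ1 (Submodule.add_mem _ (Submodule.add_mem _
        (Submodule.neg_mem _ (Submodule.smul_mem _ _ g0)) (Submodule.smul_mem _ _ g2))
        (Submodule.smul_mem _ _ g3)))
  rwa [hP, hd] at this

private theorem pw2 (n : ℕ) (h : n % 4 = 0) : (2 : ZMod 5) ^ n = 1 ∧ (3 : ZMod 5) ^ n = 1 := by
  obtain ⟨k, hk⟩ : ∃ k, n = 4 * k := ⟨n / 4, by omega⟩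
  have e3 : (3 : ZMod 5) ^ 4 = 1 := by decide
  have e2 : (2 : ZMod 5) ^ 4 = 1 := by decide
  rw [hk, pow_mul, pow_mul, e3, e2, one_pow]
  exact ⟨rfl, rfl⟩

private theorem pw4 (n : ℕ) (h : n % 4 = 2) : (2 : ZMod 5) ^ n = 4 ∧ (3 : ZMod 5) ^ n = 4 := by
  obtain ⟨k, hk⟩ : ∃ k, n = 4 * k + 2 := ⟨n / 4, by omega⟩
  have e3 : (3 : ZMod 5) ^ 4 = 1 := by decide
  have e2 : (2 : ZMod 5) ^ 4 = 1 := by decide
  have e4 : (3 : ZMod 5) ^ 2 = 4 := by decide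
  have e5 : (2 : ZMod 5) ^ 2 = 4 := by decide
  rw [hk, pow_add, pow_add, pow_mul, pow_mul, e3, e2, one_pow, one_mul, e4, e5]
  exact ⟨rfl, rfl⟩

theorem hLed (ht : S5Trm) (hl : S5Low0) (hn : S5Nfa) (h1 : S5Lw1) (hw : TLw1) (hb : S5Bb)
    (hsu : TSur) : TLed := by
  intro r s c i j hc hA hB
  obtain ⟨A, hAd⟩ : ∃ A, A = aQ c + i + 5 * j := ⟨_, rfl⟩
  obtain ⟨B, hBd⟩ : ∃ B, B = bQ c + i + j := ⟨_, rfl⟩
  have hdg : ((dgQ c i j : ℕ) : ℤ) = (A : ℤ) + B := by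
    have : dgQ c i j = A + B := by
      unfold dgQ
      omega
    rw [this]
    push_cast
    ring
  rw [hdg, ← hAd, ← hBd]
  rw [← hAd] at hA
  rw [← hBd] at hB
  have key : (c = 3 ∨ c = 5) ∨ ((A + 3 * B) % 4 = 0 ∧ Even (A + B) ∧ c ≤ 2) ∨
      ((A + 3 * B) % 4 = 2 ∧ Even (A + B) ∧ (c = 4 ∨ c = 6 ∨ c = 7)) := by
    interval_cases c
    · right; left
      have : aQ 0 = 0 := rfl
      have : bQ 0 = 0 := rfl
      exact ⟨by omega, ⟨i + 3 * j, by omega⟩, by omega⟩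
    · right; left
      have : aQ 1 = 0 := rfl
      have : bQ 1 = 0 := rfl
      exact ⟨by omega, ⟨i + 3 * j, by omega⟩, by omega⟩
    · right; left
      have : aQ 2 = 0 := rfl
      have : bQ 2 = 0 := rfl
      exact ⟨by omega, ⟨i + 3 * j, by omega⟩, by omega⟩
    · left; left; rfl
    · right; right
      have : aQ 4 = 2 := rfl
      have : bQ 4 = 0 := rfl
      exact ⟨by omega, ⟨i + 3 * j + 1, by omega⟩, by omega⟩
    · left; right; rfl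
    · right; right
      have : aQ 6 = 3 := rfl
      have : bQ 6 = 1 := rfl
      exact ⟨by omega, ⟨i + 3 * j + 2, by omega⟩, by omega⟩
    · right; right
      have : aQ 7 = 3 := rfl
      have : bQ 7 = 1 := rfl
      exact ⟨by omega, ⟨i + 3 * j + 2, by omega⟩, by omega⟩
  rcases key with h | ⟨h4, hev, hc'⟩ | ⟨h4, hev, hc'⟩
  · apply oddd hl hn hw hb hsu r s A B hA hB
    · rcases h with rfl | rfl <;> decide
    · rcases h with rfl | rfl <;> decide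
    · rcases h with rfl | rfl
      · right
        have : aQ 3 = 1 := rfl
        have : bQ 3 = 0 := rfl
        exact ⟨by decide, by decide, by omega⟩
      · left
        exact ⟨by decide, by decide⟩
  · apply evn ht hl hn h1 hw hb hsu r s A B hA hB hev
    obtain ⟨e2, e3⟩ := pw2 _ h4
    rw [e2, e3]
    ring
  · apply evn ht hl hn h1 hw hb hsu r s A B hA hB hev
    obtain ⟨e2, e3⟩ := pw4 _ h4
    rw [e2, e3]
    rcases hc' with rfl | rfl | rfl <;> decide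

end Pool.Agent.Helper47.T7
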